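import Pool.Agent.Rnd.ThmA

/-!
# MP_564ab4_lc: a criterion in terms of measures

The definitions (coding, transitive models of ZF + DC, ultrafilters, `E_0`-transversals and
colourings in a model, the condition `MeasCol`) are in `Pool/Agent/Rnd/Defs.lean`, formulas and
satisfaction in `Pool/Agent/STP/Fml.lean`.
-/

namespace Pool.Agent.Results.MP_564ab4_lc.MeasureCriterion

open Rnd

/-- Let `Γ i` be countably many Borel graphs on Baire space such that every Borel probability
measure charges some `Γ i`-invariant Borel set on which `Γ i` has a Borel `k i`-colouring. Then there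
is a countable transitive model of ZF + DC, containing any given countable set of reals, without
nonprincipal ultrafilter on `ℕ` and without `E_0`-transversal, in which every `Γ i` has a
`k i`-colouring. -/
theorem result (Γ : ℕ → (ℕ → ℕ) → (ℕ → ℕ) → Prop) (k : ℕ → ℕ)
    (hΓ : ∀ i, MeasurableSet {d : (ℕ → ℕ) × (ℕ → ℕ) | Γ i d.1 d.2})
    (hm : ∀ i, MeasCol (Γ i) (k i)) (P : Set (ℕ → ℕ)) (hP : P.Countable) :
    ∃ M, GoodModel M ∧ (∀ f ∈ P, code f ∈ M) ∧ ∀ i, HasCol M (Γ i) (k i) :=
  thmA Γ k hΓ hm P hP

end Pool.Agent.Results.MP_564ab4_lc.MeasureCriterion
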