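import Pool.Agent.Rnd.ThmA
import Pool.Agent.Rnd.GEx
import Pool.Agent.Rnd.GPFin

/-!
# MP_564ab4_lc: optimal colourings of a Borel graph of uncountable colouring number

The definitions (coding, transitive models of ZF + DC, ultrafilters, `E_0`-transversals and
colourings in a model, colouring numbers, `NoRed`, and the graph `Gam`) are in
`Pool/Agent/Rnd/Defs.lean`, formulas and satisfaction in `Pool/Agent/STP/Fml.lean`.
-/

namespace Pool.Agent.Results.MP_564ab4_lc.OptimalColouring

open Rnd

/-- **Q1 of MP_564ab4_lc: yes.** The graph `Gam` on Baire space is closed, has chromatic number `6`,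
uncountable colouring number, and no Borel homomorphism to a locally countable graph which has a
colouring with finitely many colours (in particular no Borel colouring with finitely many colours:
in contrast to a complete bipartite graph, its finite colourings need choice); and there is a
countable transitive model of ZF + DC (which can be chosen to contain any given countable set of
reals) in which `Gam` has a `6`-colouring, but which has neither a nonprincipal ultrafilter on `ℕ`
nor an `E_0`-transversal. -/
theorem result :
    (∀ f, ¬ Gam f f) ∧ (∀ f g, Gam f g → Gam g f) ∧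
      IsClosed {d : (ℕ → ℕ) × (ℕ → ℕ) | Gam d.1 d.2} ∧
      Colourable Gam 6 ∧ ¬ Colourable Gam 5 ∧ ¬ CtblColNumber Gam ∧ NoRed Gam ∧
      ∀ P : Set (ℕ → ℕ), P.Countable →
        ∃ M, GoodModel M ∧ (∀ f ∈ P, code f ∈ M) ∧ HasCol M Gam 6 := by
  refine ⟨Gam_irrefl, fun f g => Gam_symm, Gam_closed, Gam_six, Gam_not_five, Gam_uncountable,
    fun Z _ _ _ _ Δ m c φ hΔ hc hφ => no_red Δ hΔ m c hc φ hφ, fun P hP => ?_⟩
  obtain ⟨M, hM, hP', hcol⟩ := thmA (fun _ => Gam) (fun _ => 6) (fun _ => Gam_meas)
    (fun _ => Gam_measCol) P hP
  exact ⟨M, hM, hP', hcol 0⟩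

end Pool.Agent.Results.MP_564ab4_lc.OptimalColouring
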